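import Pool.Agent.PST.StmtsUC
import Pool.Agent.Helper30_PSS.S3All
import Pool.Agent.Helper65_PSS.BPU

/-!
# Squad PST, row BFN (helper56): the frame of `A(Q)` has the points fixed by `(q, q)`
-/

set_option autoImplicit false

open scoped BigOperators TensorProduct

noncomputable section

namespace Pool.Agent.PST.UC.H56

open Pool.Agent.PSS.S0 Pool.Agent.PSS Pool.Agent.PSS.H65
open Pool.Agent.PFC (tw IsTv)
open Pool.Agent.PFD.D2b (FrR)

theorem bfn_of (hSfq : SfqStmt) (hLmb : LmbStmt) (hRfd : RfdStmt) : BfnStmt := by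
  intro ℓ _ R V E A B K _ _ _ _ _ _ _ _ _ φ α Q αB β lam x y E1 hℓ hV hPer hRF hB hE1
  obtain ⟨Ω, iΩ, iA, b, c, hfr, hst⟩ := hPer
  have hfree : ∀ (v : V) (ω : Ω), ((1, v) : V × V) • ω = ω → v = 1 := by
    intro v ω h
    obtain ⟨e, S, hs⟩ := hst ω
    have h1 : ((1, v) : V × V) ∈ MulAction.stabilizer (V × V) ω := h
    rw [hs, H65.mem_tw] at h1
    have h2 : (1 : V) = φ e v := h1.2
    exact (map_eq_one_iff (φ e) (φ e).injective).1 h2.symm
  obtain ⟨d, hcd, hSF⟩ := hRfd R V A K Ω α lam x y b c hRF hfr hfree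
  obtain ⟨lamB, hlB⟩ := hLmb ℓ R V A B α Q αB β lam hℓ hV hRF.sym hB
  have hfin : Fintype (OQt Q (1 : MulAut V) Ω) := Fintype.ofFinite _
  have hSF2 := (hSfq R V A B Ω α Q αB β lam lamB b d 1 1 1 hSF hB hlB (mul_one 1) (mul_one 1)
    (fun u => by rw [one_mul, mul_one]; rfl)).2
  refine ⟨OQt Q (1 : MulAut V) Ω, hfin, inferInstance,
      (fun ω : OQt Q (1 : MulAut V) Ω => β (b ω * 1)),
      fun ω => lamB.comp (LinearMap.mulLeft R (β (1 * d (ω : Ω)))), ⟨?_, ?_, ?_⟩, ?_, ?_⟩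
  · intro g ω
    have h1 := hSF2.eb g ω
    rw [bw_app]
    refine h1.trans ?_
    rw [mul_assoc]
    rfl
  · intro g ω n
    have h1 := hSF2.ed g ω
    show lamB (β (1 * d ((g • ω : OQt Q (1 : MulAut V) Ω) : Ω)) *
      (αB g.1 * (n * αB g.2⁻¹))) = lamB (β (1 * d (ω : Ω)) * n)
    have h2 : β (1 * d ((g • ω : OQt Q (1 : MulAut V) Ω) : Ω)) =
        αB g.2 * β (1 * d (ω : Ω)) * αB g.1⁻¹ := h1
    rw [h2, hSF2.sym]
    have h3 : αB g.1 * (n * αB g.2⁻¹) * (αB g.2 * β (1 * d (ω : Ω)) * αB g.1⁻¹) =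
        αB g.1 * (n * β (1 * d (ω : Ω)) * αB g.1⁻¹) := by
      have h4 : αB g.2⁻¹ * αB g.2 = 1 := by rw [← map_mul, inv_mul_cancel, map_one]
      calc αB g.1 * (n * αB g.2⁻¹) * (αB g.2 * β (1 * d (ω : Ω)) * αB g.1⁻¹)
          = αB g.1 * (n * (αB g.2⁻¹ * αB g.2) * β (1 * d (ω : Ω)) * αB g.1⁻¹) := by
            noncomm_ring
        _ = _ := by rw [h4, mul_one]
    rw [h3, hSF2.sym, mul_assoc, ← map_mul αB, inv_mul_cancel, map_one, mul_one, hSF2.sym]
  · intro n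
    exact hSF2.fr n
  · intro ω
    obtain ⟨e, S, hs⟩ := hst (ω : Ω)
    have he : e ∈ E1 := by
      rw [hE1]
      intro q hq
      have h1 : ((q, (1 : MulAut V)⁻¹ q) : V × V) • (ω : Ω) = ω := ω.2 q hq
      have h2 : ((q, q) : V × V) ∈ MulAction.stabilizer (V × V) (ω : Ω) := h1
      rw [hs, H65.mem_tw] at h2
      exact h2.2.symm
    refine ⟨⟨e, he⟩, S, ?_⟩
    have h3 : MulAction.stabilizer (V × V) ω = MulAction.stabilizer (V × V) (ω : Ω) := by
      ext g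
      rw [MulAction.mem_stabilizer_iff, MulAction.mem_stabilizer_iff]
      constructor
      · intro h
        exact congrArg Subtype.val h
      · intro h
        exact Subtype.ext h
    rw [h3, hs]
    rfl
  · intro q hq ω
    apply Subtype.ext
    have h1 : ((q, (1 : MulAut V)⁻¹ q) : V × V) • (ω : Ω) = ω := ω.2 q hq
    exact h1

theorem bfn : BfnStmt := bfn_of All30.sfq All30.lmb All30.rfd

end Pool.Agent.PST.UC.H56
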