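import Pool.Agent.PST.StmtsNW
import Pool.Agent.Helper6_PSS.BKI
import Pool.Agent.Helper52_PSS.FRB
import Pool.Agent.Helper85_PSS.ORB

/-!
# Squad PST, row NWC (helper56): `N_W(A)` is in the class `Cl`
-/

set_option autoImplicit false

open scoped BigOperators TensorProduct

noncomputable section

namespace Pool.Agent.PST.H56

open Pool.Agent.PFC (tw IsTv)
open Pool.Agent.PFD.D2b (FrR)
open Pool.Agent.PSS

/-- the Casimir element is central -/
theorem cas_central {F V A K : Type} [CommRing F] [CommGroup V] [Fintype V] [Ring A] [Algebra F A]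
    [Fintype K] {α : V →* A} {lam : A →ₗ[F] F} {x y : K → A} (h : RF F α lam x y) (a : A) :
    a * ∑ k, x k * y k = (∑ k, x k * y k) * a := by
  calc a * ∑ k, x k * y k = ∑ k, (a * x k) * y k := by
        rw [Finset.mul_sum]
        exact Finset.sum_congr rfl fun k _ => (mul_assoc _ _ _).symm
    _ = ∑ k, ∑ j, ∑ v, lam (α v⁻¹ * y j * (a * x k)) • (x j * α v * y k) := by
        refine Finset.sum_congr rfl fun k _ => ?_
        conv_lhs => rw [← h.e1 (a * x k)]
        rw [Finset.sum_mul]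
        refine Finset.sum_congr rfl fun j _ => ?_
        rw [Finset.sum_mul]
        exact Finset.sum_congr rfl fun v _ => smul_mul_assoc _ _ _
    _ = ∑ j, ∑ k, ∑ v, lam (α v⁻¹ * y j * (a * x k)) • (x j * α v * y k) := Finset.sum_comm
    _ = ∑ j, x j * (y j * a) := by
        refine Finset.sum_congr rfl fun j _ => ?_
        conv_rhs => rw [← h.e2 (y j * a)]
        rw [Finset.mul_sum]
        refine Finset.sum_congr rfl fun k _ => ?_
        rw [← Equiv.sum_comp (Equiv.inv V), Finset.mul_sum]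
        refine Finset.sum_congr rfl fun v _ => ?_
        rw [Equiv.inv_apply, inv_inv, mul_smul_comm, mul_assoc (x j)]
        have e : lam (α v * y j * (a * x k)) = lam (y j * a * (x k * α v)) := by
          rw [mul_assoc (α v), h.sym]
          simp only [mul_assoc]
        rw [e]
    _ = (∑ k, x k * y k) * a := by
        rw [Finset.sum_mul]
        exact Finset.sum_congr rfl fun j _ => (mul_assoc _ _ _).symm

/-- a traced element which is fixed by a larger group -/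
theorem bkr_up {ℓ : ℕ} [Fact ℓ.Prime] {F V B Ω : Type} [CommRing F] [CommGroup V] [Fintype V]
    [Ring B] [Algebra F B] [Fintype Ω] [MulAction (V × V) Ω] (γ : V →* B) (b : Ω → B)
    (c : Ω → (B →ₗ[F] F)) (h0 : (ℓ : F) = 0) (hV : IsPGroup ℓ V) (hf : FrR (bw F γ) b c)
    {Q P : Subgroup V} (hQP : Q ≤ P) {m : B} (h1 : m ∈ BKR (cw F γ) Q)
    (h2 : m ∈ FxR (cw F γ) P) : m ∈ BKR (cw F γ) P := by
  letI : MulAction V Ω :=
    MulAction.compHom Ω ((MonoidHom.id V).prod (MonoidHom.id V) : V →* V × V)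
  have hfr : FrR (cw F γ) b c :=
    ⟨fun g t => hf.1 (g, g) t, fun g t n => hf.2.1 (g, g) t n, hf.2.2⟩
  have frb := Pool.Agent.PSS.H52.frb Pool.Agent.PSS.H85.orb
  have k1 := (frb ℓ F V B Ω (cw F γ) b c Q h0 (hV.to_subgroup Q) inferInstance hfr).1
  have k2 := (frb ℓ F V B Ω (cw F γ) b c P h0 (hV.to_subgroup P) inferInstance hfr).2 m h2
  have k3 : ∑ ω : Fp Ω P, c ω.1 m • b ω.1 = 0 := by
    refine Finset.sum_eq_zero fun ω _ => ?_
    rw [k1 ω.1 (hQP.trans ω.2) m h1, zero_smul]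
  rw [k3, sub_zero] at k2
  exact k2

section

variable {F V A B : Type} [CommRing F] [CommGroup V] [Ring A] [Algebra F A] [Ring B] [Algebra F B]

theorem fx_tw1 {α : V →* A} {W P : Subgroup V} (h : W ≤ P) {a : A}
    (ha : a ∈ FxR (cw F α) P) : a ∈ FxR (bw F α) (twW W (1 : MulAut W)) := by
  rw [mem_tw]
  intro w
  rw [mem_cw] at ha
  exact ha w (h w.2)

theorem be_fx {α : V →* A} {W P : Subgroup V} (N : IsNW F α W B) (h : W ≤ P) {a : A}
    (ha : a ∈ FxR (cw F α) P) : N.β 1 a ∈ FxR (cw F N.nwh) P := by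
  rw [mem_cw]
  intro p hp
  rw [N.nwh_apply]
  have h1 := N.mul 1 1 (α p) (al_mem_tw p W) a (fx_tw1 h ha)
  have h2 := N.mul 1 1 a (fx_tw1 h ha) (α p) (al_mem_tw p W)
  rw [mul_one] at h1 h2
  rw [← h1, ← h2]
  rw [mem_cw] at ha
  rw [ha p hp]

theorem be_mul {α : V →* A} {W P : Subgroup V} (N : IsNW F α W B) (h : W ≤ P) {a a' : A}
    (ha : a ∈ FxR (cw F α) P) (ha' : a' ∈ FxR (cw F α) P) :
    N.β 1 (a * a') = N.β 1 a * N.β 1 a' := by
  have h1 := N.mul 1 1 a (fx_tw1 h ha) a' (fx_tw1 h ha')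
  rw [mul_one] at h1
  exact h1

end

/-- NWC -/
theorem nwc (nfp : NfpStmt) (nrf : NrfStmt) (ncg : NcgStmt) (ncb : NcbStmt) (ncn : NcnStmt) :
    NwcStmt := by
  classical
  intro ℓ _ F V E A B _ _ _ _ _ _ _ _ _ φ α W N hV hW h
  have h0 : (ℓ : F) = 0 := CharP.cast_eq_zero F ℓ
  have hfin := h.fin
  haveI : Finite (MulAut W) := Finite.of_injective (fun f => (f : W → W)) DFunLike.coe_injective
  letI : Fintype (MulAut W) := Fintype.ofFinite _
  obtain ⟨hper, huni⟩ := nfp ℓ F V E A B φ α W N h0 hV hW h.per h.uni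
  refine ⟨?_, hper, huni, ?_, ?_⟩
  · -- fin
    let L : (MulAut W → A) →ₗ[F] B :=
      ∑ ε, (N.β ε).comp (LinearMap.proj (R := F) (φ := fun _ : MulAut W => A) ε)
    refine Module.Finite.of_surjective L ?_
    intro b
    obtain ⟨f, -, hf⟩ := N.spn b
    refine ⟨f, ?_⟩
    rw [← hf, finsum_eq_sum_of_fintype]
    show (∑ ε, (N.β ε).comp (LinearMap.proj (R := F) (φ := fun _ : MulAut W => A) ε)) f = _
    rw [LinearMap.sum_apply]
    rfl
  · -- rt
    obtain ⟨lam, K, _, x, y, hRF, u, hu⟩ := h.rt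
    obtain ⟨lam', K', _, x', y', hRF', hsum⟩ := nrf ℓ F V E A B K φ α W N lam x y h0 hV hW h.per
      hRF
    refine ⟨lam', K', inferInstance, x', y', hRF', N.β 1 u, ?_⟩
    have hc := cas_central hRF
    obtain ⟨ζ, hζ⟩ : ∃ ζ, ζ = ∑ k, x k * y k := ⟨_, rfl⟩
    rw [← hζ] at hc hu hsum
    have hζfx : ζ ∈ FxR (cw F α) ⊤ := by
      rw [mem_cw]
      intro q _
      exact hc _
    have hufx : u ∈ FxR (cw F α) ⊤ := by
      rw [mem_cw]
      intro q _
      calc α q * u = u * ζ * α q * u := by rw [hu, one_mul]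
        _ = u * (ζ * α q) * u := by rw [mul_assoc u]
        _ = u * (α q * ζ) * u := by rw [← hc]
        _ = u * α q * (ζ * u) := by simp only [mul_assoc]
        _ = u * α q * (u * ζ) := by rw [← hc u]
        _ = u * α q := by rw [hu, mul_one]
    rw [hsum, ← be_mul N le_top hufx hζfx, hu, N.one]
  · -- blk
    intro Q e he hee hcomm heT
    obtain ⟨Ω, _, _, b, c, hfr, hst⟩ := h.per
    obtain ⟨Ω', _, _, b', c', hfr', -⟩ := hper
    have hfre : ∀ (u : V) (ω : Ω), ((u, 1) : V × V) • ω = ω → u = 1 := by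
      intro u ω hu
      obtain ⟨ε, S, hS⟩ := hst ω
      have h1 : ((u, 1) : V × V) ∈ MulAction.stabilizer (V × V) ω := hu
      rw [hS] at h1
      obtain ⟨s, _, hs⟩ := h1
      have h2 : s = 1 := congrArg Prod.snd hs
      have h3 : φ ε s = u := congrArg Prod.fst hs
      rw [← h3, h2, map_one]
    have bki := Pool.Agent.PSS.S0.H6.bki
    obtain ⟨P, hP⟩ : ∃ P, P = Q ⊔ W := ⟨_, rfl⟩
    have hQP : Q ≤ P := by rw [hP]; exact le_sup_left
    have hWP : W ≤ P := by rw [hP]; exact le_sup_right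
    obtain ⟨f, hf1, hf2, hf3⟩ := ncg F V A B α W N ⊤ e he
    obtain ⟨p1, p2, -⟩ := ncb ℓ F V A B Ω α b c W P N hV hfr hfre hWP
    obtain ⟨t1, t2, t3⟩ := ncb ℓ F V A B Ω α b c W ⊤ N hV hfr hfre le_top
    obtain ⟨g, hg, hgf⟩ := t3 (f 1) (hf1 1) (hf2 1)
    have mono : ∀ {γ : V →* B} {a : B} {S : Subgroup V}, a ∈ FxR (cw F γ) ⊤ →
        a ∈ FxR (cw F γ) S := fun ha v _ => ha v trivial
    have monoA : ∀ {a : A} {S : Subgroup V}, a ∈ FxR (cw F α) ⊤ →
        a ∈ FxR (cw F α) S := fun ha v _ => ha v trivial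
    -- the rest `n`
    obtain ⟨n, hn⟩ : ∃ n, n = ∑ ε ∈ Finset.univ.erase (1 : MulAut W), N.β ε (f ε) := ⟨_, rfl⟩
    have hen : e = N.β 1 g + n := by
      rw [hn, hgf, ← hf3, finsum_eq_sum_of_fintype]
      exact (Finset.add_sum_erase _ _ (Finset.mem_univ _)).symm
    have hnT : n ∈ BKR (cw F N.nwh) ⊤ := by
      rw [hn]
      refine Submodule.sum_mem _ fun ε hε => ?_
      exact t2 ε (Finset.ne_of_mem_erase hε) _ (hf1 ε) (hf2 ε)
    have hnP : n ∈ BKR (cw F N.nwh) P := by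
      rw [hn]
      refine Submodule.sum_mem _ fun ε hε => ?_
      exact p2 ε (Finset.ne_of_mem_erase hε) _ (hf1 ε) (mono (hf2 ε))
    have hnfx : n ∈ FxR (cw F N.nwh) P := BKR_le_FxR hnP
    obtain ⟨e1, he1⟩ : ∃ e1, e1 = N.β 1 g := ⟨_, rfl⟩
    have he1fx : e1 ∈ FxR (cw F N.nwh) ⊤ := by
      rw [he1]
      exact be_fx N le_top hg
    have he1P : e1 ∈ FxR (cw F N.nwh) P := mono he1fx
    rw [← he1] at hen
    have hgT : g ∈ BKR (cw F α) ⊤ := by
      refine (t1 g hg).1 ?_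
      rw [← he1]
      have h1 : e1 = e - n := by rw [hen, add_sub_cancel_right]
      rw [h1]
      exact Submodule.sub_mem _ heT hnT
    have hmul : ∀ {a a' : B}, a ∈ FxR (cw F N.nwh) P → a' ∈ FxR (cw F N.nwh) P →
        a * a' ∈ FxR (cw F N.nwh) P := fun ha ha' => Pool.Agent.PSS.S0.H6.fx_mul _ ha ha'
    have hmulA : ∀ {a a' : A} {S : Subgroup V}, a ∈ FxR (cw F α) S → a' ∈ FxR (cw F α) S →
        a * a' ∈ FxR (cw F α) S := fun ha ha' => Pool.Agent.PSS.S0.H6.fx_mul _ ha ha'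
    have heP : e ∈ FxR (cw F N.nwh) P := mono he
    have hgP : g ∈ FxR (cw F α) P := monoA hg
    -- `g` is idempotent modulo the kernel
    have hgg : g * g - g ∈ BKR (cw F α) P := by
      refine (p1 _ (Submodule.sub_mem _ (hmulA hgP hgP) hgP)).1 ?_
      have h1 : e * e - e ∈ BKR (cw F N.nwh) P :=
        bkr_up N.nwh b' c' h0 hV hfr' hQP hee (Submodule.sub_mem _ (hmul heP heP) heP)
      have h2 : N.β 1 (g * g - g) = (e * e - e) - (e1 * n + n * e1 + n * n - n) := by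
        rw [map_sub, be_mul N le_top hg hg, ← he1, hen]
        noncomm_ring
      rw [h2]
      refine Submodule.sub_mem _ h1 (Submodule.sub_mem _ (Submodule.add_mem _
        (Submodule.add_mem _ ?_ ?_) ?_) hnP)
      · exact (bki F V B N.nwh P e1 he1P n hnP).1
      · exact (bki F V B N.nwh P e1 he1P n hnP).2
      · exact (bki F V B N.nwh P n hnfx n hnP).1
    have hgc : ∀ a ∈ FxR (cw F α) P, g * a - a * g ∈ BKR (cw F α) P := by
      intro a ha
      refine (p1 _ (Submodule.sub_mem _ (hmulA hgP ha) (hmulA ha hgP))).1 ?_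
      obtain ⟨a', ha'⟩ : ∃ a', a' = N.β 1 a := ⟨_, rfl⟩
      have ha'P : a' ∈ FxR (cw F N.nwh) P := by
        rw [ha']
        exact be_fx N hWP ha
      have ha'Q : a' ∈ FxR (cw F N.nwh) Q := fun v hv => ha'P v (hQP hv)
      have h1 : e * a' - a' * e ∈ BKR (cw F N.nwh) P :=
        bkr_up N.nwh b' c' h0 hV hfr' hQP (hcomm a' ha'Q)
          (Submodule.sub_mem _ (hmul heP ha'P) (hmul ha'P heP))
      have h2 : N.β 1 (g * a - a * g) = (e * a' - a' * e) - (n * a' - a' * n) := by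
        rw [map_sub, be_mul N hWP hgP ha, be_mul N hWP ha hgP, ← he1, ← ha', hen]
        noncomm_ring
      rw [h2]
      refine Submodule.sub_mem _ h1 (Submodule.sub_mem _ ?_ ?_)
      · exact (bki F V B N.nwh P a' ha'P n hnP).2
      · exact (bki F V B N.nwh P a' ha'P n hnP).1
    have hgk := h.blk P g hg hgg hgc hgT
    have hek : e ∈ BKR (cw F N.nwh) P := by
      rw [hen, he1]
      exact Submodule.add_mem _ ((p1 g hgP).2 hgk) hnP
    rw [hP] at hek
    exact ncn ℓ F V A B α W Q N e hV (mono he) hee hek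

end Pool.Agent.PST.H56
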