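import Pool.Agent.PST.StmtsK4
import Pool.Agent.Helper6_PSS.BKI

/-!
# Squad PST, row BQT (helper56): transitivity of Brauer quotients
-/

set_option autoImplicit false

open scoped BigOperators

noncomputable section

namespace Pool.Agent.PST.H56

open Pool.Agent.PFC (tw IsTv)
open Pool.Agent.PFD.D2b (FrR)
open Pool.Agent.PSS
open Pool.Agent.PSS.S0 (IsBQ)

section

variable {R V A B : Type} [CommRing R] [CommGroup V] [Ring A] [Algebra R A] [Ring B] [Algebra R B]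
  {α : V →* A} {Q : Subgroup V} {αB : V →* B} {β : A → B}

theorem isBQ_sub (h : IsBQ R α Q αB β) {a b : A} (ha : a ∈ FxR (cw R α) Q)
    (hb : b ∈ FxR (cw R α) Q) : β (a - b) = β a - β b := by
  have h1 := h.add (a - b) (Submodule.sub_mem _ ha hb) b hb
  rw [sub_add_cancel] at h1
  exact (sub_eq_of_eq_add h1).symm

theorem isBQ_one_mem : (1 : A) ∈ FxR (cw R α) Q :=
  mem_cw.2 fun q _ => by rw [mul_one, one_mul]

end

theorem bqt (bbk : S0.BbkStmt) : BqtStmt := by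
  intro ℓ _ F V E A BT BT' K _ _ _ _ _ _ _ _ _ _ _ _ φ α lam x y T T' αT βT αT' βT' hV hP hR hT
    hT' hle
  classical
  have hℓ : (ℓ : F) = 0 := CharP.cast_eq_zero F ℓ
  have hsup : T' ⊔ T = T' := sup_eq_left.2 hle
  obtain ⟨h1, h2⟩ := bbk ℓ F V E A BT K φ α T αT βT lam x y T' hℓ hV hP hR hT
  rw [hsup] at h1 h2
  have hmono : ∀ {a : A}, a ∈ FxR (cw F α) T' → a ∈ FxR (cw F α) T := fun h u hu => h u (hle hu)
  have key : ∀ a ∈ FxR (cw F α) T', ∀ a₁ ∈ FxR (cw F α) T', βT a = βT a₁ → βT' a = βT' a₁ := by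
    intro a ha a₁ ha₁ h
    have h3 : βT (a - a₁) = 0 := by rw [isBQ_sub hT (hmono ha) (hmono ha₁), h, sub_self]
    have h4 : a - a₁ ∈ FxR (cw F α) T' := Submodule.sub_mem _ ha ha₁
    have h5 : a - a₁ ∈ BKR (cw F α) T' :=
      (h1 _ h4).2.1 (by rw [h3]; exact Submodule.zero_mem _)
    have h6 := (hT'.ker _ h4).2 h5
    rw [isBQ_sub hT' ha ha₁, sub_eq_zero] at h6
    exact h6
  obtain ⟨f, hf⟩ : ∃ f : BT → BT', ∀ a ∈ FxR (cw F α) T', f (βT a) = βT' a := by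
    refine ⟨fun z => if h : z ∈ FxR (cw F αT) T' then βT' (h2 z h).choose else 0, ?_⟩
    intro a ha
    have h3 := (h1 a ha).1
    simp only [dif_pos h3]
    obtain ⟨h4, h5⟩ := (h2 _ h3).choose_spec
    exact key _ h4 _ ha h5
  refine ⟨f, ⟨?_, ?_, ?_, ?_, ?_, ?_, ?_⟩, hf⟩
  · intro a ha b hb
    obtain ⟨a, ha', rfl⟩ := h2 a ha
    obtain ⟨b, hb', rfl⟩ := h2 b hb
    rw [← hT.add _ (hmono ha') _ (hmono hb'), hf _ (Submodule.add_mem _ ha' hb'), hf _ ha',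
      hf _ hb', hT'.add _ ha' _ hb']
  · intro r a ha
    obtain ⟨a, ha', rfl⟩ := h2 a ha
    rw [← hT.smul _ _ (hmono ha'), hf _ (Submodule.smul_mem _ _ ha'), hf _ ha', hT'.smul _ _ ha']
  · have h3 := hf 1 isBQ_one_mem
    rw [hT.one, hT'.one] at h3
    exact h3
  · intro a ha b hb
    obtain ⟨a, ha', rfl⟩ := h2 a ha
    obtain ⟨b, hb', rfl⟩ := h2 b hb
    rw [← hT.mul _ (hmono ha') _ (hmono hb'),
      hf _ (Pool.Agent.PSS.S0.H6.fx_mul α ha' hb'), hf _ ha', hf _ hb', hT'.mul _ ha' _ hb']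
  · intro a ha
    obtain ⟨a, ha', rfl⟩ := h2 a ha
    rw [hf _ ha', hT'.ker _ ha', (h1 _ ha').2]
  · intro b
    obtain ⟨a, ha, rfl⟩ := hT'.surj b
    exact ⟨βT a, (h1 a ha).1, hf a ha⟩
  · intro v
    rw [← hT.om, hf _ (al_mem_cw v _), hT'.om]

end Pool.Agent.PST.H56
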