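import Pool.Agent.PST.StmtsK1
import Pool.Agent.Helper6_PSS.BKI

/-!
# Squad PST, row DZU (helper56): the value of `D_e` at `rt(u) - rt(1)`
-/

set_option autoImplicit false

open scoped BigOperators

noncomputable section

namespace Pool.Agent.PST.H56

open Pool.Agent.PFC (tw IsTv)
open Pool.Agent.PFD.D2b (FrR)
open Pool.Agent.PSS
open Pool.Agent.PSS.S0 (IsBQ)

section nil

variable {B : Type} [Ring B]

theorem pow_add_cen {a c b : B} (hc : ∀ x, c * x = x * c) (n : ℕ) :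
    ∃ d, (a + c * b) ^ n = a ^ n + c * d := by
  induction n with
  | zero => exact ⟨0, by rw [pow_zero, pow_zero, mul_zero, add_zero]⟩
  | succ n ih =>
    obtain ⟨d, hd⟩ := ih
    refine ⟨d * a + a ^ n * b + d * (c * b), ?_⟩
    rw [pow_succ, hd, pow_succ, add_mul, mul_add, mul_add, mul_add, mul_add]
    have h1 : a ^ n * (c * b) = c * (a ^ n * b) := by
      rw [← mul_assoc, ← hc, mul_assoc]
    rw [h1, mul_assoc, mul_assoc]
    abel

theorem nil_add_cen {a c b : B} (ha : IsNilpotent a) (hc : ∀ x, c * x = x * c)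
    (hn : IsNilpotent c) : IsNilpotent (a + c * b) := by
  obtain ⟨n, hn1⟩ := ha
  obtain ⟨m, hm⟩ := hn
  obtain ⟨d, hd⟩ := pow_add_cen (a := a) (b := b) hc n
  refine ⟨n * m, ?_⟩
  rw [pow_mul, hd, hn1, zero_add]
  have h1 : Commute c d := hc d
  rw [h1.mul_pow, hm, zero_mul]

theorem nil_sum_cen {T : Type} (S : Finset T) (c b : T → B) (hc : ∀ t, ∀ x, c t * x = x * c t)
    (hn : ∀ t, IsNilpotent (c t)) : IsNilpotent (∑ t ∈ S, c t * b t) := by
  classical
  induction S using Finset.induction_on with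
  | empty => rw [Finset.sum_empty]; exact IsNilpotent.zero
  | insert t S hS ih =>
    rw [Finset.sum_insert hS, add_comm]
    exact nil_add_cen ih (hc t) (hn t)

end nil

section der

variable {F V E A K : Type} [Field F] [CommGroup V] [Fintype V] [Group E] [Ring A]
  [Algebra F A] [Fintype K] {φ : E →* MulAut V} {α : V →* A} {e : V → F} {D : A →ₗ[F] A} {z0 : A}

theorem adc_one (he : Adc φ e) : e 1 = 0 := by
  have h := he.add 1 1
  rw [mul_one] at h
  exact left_eq_add.1 h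

theorem adc_inv (he : Adc φ e) (v : V) : e v⁻¹ = - e v := by
  have h := he.add v v⁻¹
  rw [mul_inv_cancel, adc_one he] at h
  exact eq_neg_of_add_eq_zero_right h.symm

theorem der_fx (hD : Der D) (hz : ∀ c, c * z0 = z0 * c) (hv : ∀ v, D (α v) = e v • (α v * z0))
    {P : Subgroup V} {a : A} (ha : a ∈ FxR (cw F α) P) : D a ∈ FxR (cw F α) P := by
  rw [mem_cw] at ha ⊢
  intro q hq
  have h1 := ha q hq
  have h2 := congrArg D h1
  rw [hD, hD, hv] at h2
  have h3 : e q • (α q * z0) * a = a * (e q • (α q * z0)) := by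
    rw [smul_mul_assoc, mul_smul_comm, mul_assoc, ← hz, ← mul_assoc, h1, mul_assoc]
  rw [h3, add_comm (D a * α q)] at h2
  exact add_left_cancel h2

theorem der_cw (he : Adc φ e) (hD : Der D) (hz : ∀ c, c * z0 = z0 * c)
    (hv : ∀ v, D (α v) = e v • (α v * z0)) (t : V) (m : A) :
    D (cw F α t m) = cw F α t (D m) := by
  rw [Pool.Agent.PSS.S0.H6.cw_apply, Pool.Agent.PSS.S0.H6.cw_apply, hD, hD, hv, hv, adc_inv he]
  have h1 : e t • (α t * z0) * (m * α t⁻¹) = e t • (α t * m * α t⁻¹ * z0) := by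
    rw [smul_mul_assoc, mul_assoc (α t), ← hz]
    simp only [mul_assoc]
  have h2 : α t * (m * (-e t) • (α t⁻¹ * z0)) = - (e t • (α t * m * α t⁻¹ * z0)) := by
    rw [mul_smul_comm, mul_smul_comm, neg_smul]
    simp only [mul_assoc]
  rw [h1, mul_add, h2]
  abel

theorem der_bk (he : Adc φ e) (hD : Der D) (hz : ∀ c, c * z0 = z0 * c)
    (hv : ∀ v, D (α v) = e v • (α v * z0)) {P : Subgroup V} {a : A}
    (ha : a ∈ BKR (cw F α) P) : D a ∈ BKR (cw F α) P := by
  refine Submodule.span_induction (p := fun m _ => D m ∈ BKR (cw F α) P) ?_ ?_ ?_ ?_ ha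
  · rintro n ⟨P', S, m', hlt, hS, hm', rfl⟩
    refine Submodule.subset_span ⟨P', S, D m', hlt, hS, der_fx hD hz hv hm', ?_⟩
    rw [map_sum]
    exact Finset.sum_congr rfl fun x _ => der_cw he hD hz hv x m'
  · rw [map_zero]; exact Submodule.zero_mem _
  · intro x y _ _ hx hy
    rw [map_add]; exact Submodule.add_mem _ hx hy
  · intro r x _ hx
    rw [map_smul]; exact Submodule.smul_mem _ _ hx

theorem der_cen (hD : Der D) {z : A} (hz : ∀ c, c * z = z * c) (c : A) : c * D z = D z * c := by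
  have h := congrArg D (hz c)
  rw [hD, hD, hz (D c), add_comm] at h
  exact add_right_cancel h

theorem cen_fx {z : A} (hz : ∀ c, c * z = z * c) (P : Subgroup V) : z ∈ FxR (cw F α) P :=
  mem_cw.2 fun q _ => hz (α q)

end der

theorem exists_T {V E : Type} [CommGroup V] [Group E] [Finite E] (φ : E →* MulAut V) :
    ∃ T : Finset E, ∀ e : E, ∃! t, t ∈ T ∧ ∀ q ∈ (⊤ : Subgroup V), (φ t)⁻¹ q = (φ e)⁻¹ q := by
  classical
  haveI : Fintype E := Fintype.ofFinite E
  obtain ⟨s, hs⟩ : ∃ s : Set.range φ → E, ∀ y, φ (s y) = y :=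
    ⟨fun y => y.2.choose, fun y => y.2.choose_spec⟩
  refine ⟨Finset.univ.image (fun e => s ⟨φ e, Set.mem_range_self e⟩), fun e =>
    ⟨s ⟨φ e, Set.mem_range_self e⟩, ⟨Finset.mem_image.2 ⟨e, Finset.mem_univ _, rfl⟩, ?_⟩, ?_⟩⟩
  · intro q _
    rw [hs]
  · rintro t ⟨ht, ht2⟩
    obtain ⟨e', -, rfl⟩ := Finset.mem_image.1 ht
    have h1 : (φ e')⁻¹ = (φ e)⁻¹ := by
      ext q
      have h2 := ht2 q trivial
      rw [hs] at h2
      exact h2
    have h3 : φ e' = φ e := inv_injective h1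
    have h4 : (⟨φ e', Set.mem_range_self e'⟩ : Set.range φ) = ⟨φ e, Set.mem_range_self e⟩ :=
      Subtype.ext h3
    rw [h4]

theorem nil_unip {F V B : Type} {ℓ : ℕ} [Fact ℓ.Prime] [Field F] [CharP F ℓ] [CommGroup V]
    [Ring B] [Algebra F B] (hV : IsPGroup ℓ V) (αB : V →* B) (w : V) :
    IsNilpotent (αB w - 1) := by
  rcases subsingleton_or_nontrivial B with hB | hB
  · exact ⟨1, Subsingleton.elim _ _⟩
  · haveI : CharP B ℓ := charP_of_injective_algebraMap (algebraMap F B).injective ℓ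
    obtain ⟨k, hk⟩ := hV w
    refine ⟨ℓ ^ k, ?_⟩
    rw [sub_pow_char_pow_of_commute (p := ℓ) _ (Commute.one_right (αB w)), ← map_pow, hk, map_one, one_pow,
      sub_self]

theorem dzu (nkb : NkbStmt) (bqx : S0.BqxStmt) (bpu : S0.BpuStmt) (mck : S0.MckStmt)
    (zrt : S0.ZrtStmt) : DzuStmt := by
  intro ℓ _ F V E A K _ _ _ _ _ _ _ _ _ φ α lam x y e D hV hE hC hR he hD hDv u
  classical
  have hℓ : (ℓ : F) = 0 := CharP.cast_eq_zero F ℓ
  have hcen : ∀ a ∈ FxR (cw F α) (⊤ : Subgroup V), ∀ c : A, c * rt x y a = rt x y a * c :=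
    fun a ha c => zrt F V A K α lam x y hR a ha c
  have h1fx : (1 : A) ∈ FxR (cw F α) (⊤ : Subgroup V) :=
    mem_cw.2 fun q _ => by rw [mul_one, one_mul]
  have hufx : ∀ v, α v ∈ FxR (cw F α) (⊤ : Subgroup V) := fun v => al_mem_cw v _
  set ζ : A := rt x y 1 with hζ
  have hzc : ∀ c, c * ζ = ζ * c := hcen 1 h1fx
  have huc : ∀ c, c * rt x y (α u) = rt x y (α u) * c := hcen _ (hufx u)
  -- the Brauer quotient
  obtain ⟨B, _, _, αB, β, hB⟩ := bqx F V A α ⊤
  obtain ⟨-, -, lamB, KB, _, xB, yB, hRB, hlB⟩ := bpu ℓ F V E A B K φ α ⊤ αB β lam x y (CE φ ⊤)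
    hℓ hV hC.per hC.uni hR hB (fun e => Iff.rfl)
  choose n n' hn using hC.uni
  obtain ⟨T, hT⟩ := exists_T φ
  have hm := mck ℓ F V E A B K KB φ α ⊤ αB β lam x y lamB xB yB n n' T hℓ hV hC.per hR hB hRB hlB
    hn hT
  -- `V` is central in `B`
  have hVB : ∀ v, ∀ b : B, αB v * b = b * αB v := by
    intro v b
    obtain ⟨a, ha, rfl⟩ := hB.surj b
    rw [← hB.om, ← hB.mul _ (hufx v) _ ha, ← hB.mul _ ha _ (hufx v), mem_cw.1 ha v trivial]
  obtain ⟨s, hs, hsB⟩ := hB.surj (∑ k, xB k * yB k)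
  -- additivity of `β`
  have hB0 : β 0 = 0 := by
    have h := hB.smul 0 0 (Submodule.zero_mem _)
    rwa [zero_smul, zero_smul] at h
  have hBsub : ∀ a ∈ FxR (cw F α) (⊤ : Subgroup V), ∀ b ∈ FxR (cw F α) (⊤ : Subgroup V),
      β (a - b) = β a - β b := by
    intro a ha b hb
    have h := hB.add (a - b) (Submodule.sub_mem _ ha hb) b hb
    rw [sub_add_cancel] at h
    exact (sub_eq_of_eq_add h).symm
  have hBsum : ∀ (f : E → A), (∀ t, f t ∈ FxR (cw F α) (⊤ : Subgroup V)) → ∀ S : Finset E,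
      β (∑ t ∈ S, f t) = ∑ t ∈ S, β (f t) := by
    intro f hf S
    induction S using Finset.induction_on with
    | empty => rw [Finset.sum_empty, Finset.sum_empty, hB0]
    | insert t S hS ih =>
      rw [Finset.sum_insert hS, Finset.sum_insert hS,
        hB.add _ (hf t) _ (Submodule.sum_mem _ fun t _ => hf t), ih]
  -- the two elements of `BK`
  have key : ∀ v : V, rt x y (α v) - ∑ t ∈ T, α (φ t v) * s ∈ BKR (cw F α) (⊤ : Subgroup V) := by
    intro v
    have hfx : ∀ t, α (φ t v) * s ∈ FxR (cw F α) (⊤ : Subgroup V) := fun t =>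
      Pool.Agent.PSS.S0.H6.fx_mul α (hufx _) hs
    have hr : rt x y (α v) ∈ FxR (cw F α) (⊤ : Subgroup V) := cen_fx (hcen _ (hufx v)) _
    rw [← hB.ker _ (Submodule.sub_mem _ hr (Submodule.sum_mem _ fun t _ => hfx t)),
      hBsub _ hr _ (Submodule.sum_mem _ fun t _ => hfx t), hBsum _ hfx]
    have h1 : β (rt x y (α v)) = ∑ t ∈ T, ∑ k, xB k * β (n t * α v * n' t) * yB k :=
      hm (α v) (hufx v)
    rw [h1, ← Finset.sum_sub_distrib]
    refine Finset.sum_eq_zero fun t _ => ?_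
    have h2 : n t * α v * n' t = α (φ t v) := by
      rw [(hn t).2.2 v, mul_assoc, (hn t).1, mul_one]
    rw [h2, hB.om, hB.mul _ (hufx _) _ hs, hB.om, hsB, Finset.mul_sum, sub_eq_zero]
    refine Finset.sum_congr rfl fun k _ => ?_
    rw [← hVB, mul_assoc]
  have hm1 := key u
  have hm0 : ζ - ∑ t ∈ T, s ∈ BKR (cw F α) (⊤ : Subgroup V) := by
    have h := key 1
    simp only [map_one, one_mul] at h
    exact h
  -- the element
  have hDm1 := der_bk he hD hzc hDv hm1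
  have hDm0 := der_bk he hD hzc hDv hm0
  have hzm0 := Submodule.smul_mem _ (e u)
    ((Pool.Agent.PSS.S0.H6.bki F V A α ⊤ ζ (cen_fx hzc _) _ hm0).1)
  have hDs : D s ∈ FxR (cw F α) (⊤ : Subgroup V) := der_fx hD hzc hDv hs
  have hzs : ζ * s ∈ FxR (cw F α) (⊤ : Subgroup V) :=
    Pool.Agent.PSS.S0.H6.fx_mul α (cen_fx hzc _) hs
  set w : A := e u • (ζ * s) + D s with hw
  have hwfx : w ∈ FxR (cw F α) (⊤ : Subgroup V) :=
    Submodule.add_mem _ (Submodule.smul_mem _ _ hzs) hDs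
  set p : A := D (rt x y (α u) - ζ) - e u • (ζ * ζ) with hp
  have hpe : p - ∑ t ∈ T, (α (φ t u) - 1) * w ∈ BKR (cw F α) (⊤ : Subgroup V) := by
    have h := Submodule.sub_mem _ (Submodule.sub_mem _ hDm1 hDm0) hzm0
    have h2 : p - ∑ t ∈ T, (α (φ t u) - 1) * w =
        D (rt x y (α u) - ∑ t ∈ T, α (φ t u) * s) - D (ζ - ∑ t ∈ T, s) -
          e u • (ζ * (ζ - ∑ t ∈ T, s)) := by
      rw [hp, map_sub, map_sub, map_sub, map_sum, map_sum, mul_sub, smul_sub, Finset.mul_sum,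
        Finset.smul_sum]
      have h3 : ∀ t, D (α (φ t u) * s) = (α (φ t u) - 1) * w + e u • (ζ * s) + D s := by
        intro t
        rw [hD, hDv, he.inv, hw, sub_mul, mul_add, one_mul, smul_mul_assoc, mul_smul_comm,
          mul_assoc]
        abel
      rw [Finset.sum_congr rfl fun t _ => h3 t, Finset.sum_add_distrib, Finset.sum_add_distrib]
      abel
    rw [h2]
    exact h
  -- centrality
  have hpc : ∀ a, p * a = a * p := by
    intro a
    have h1 : ∀ c, c * (rt x y (α u) - ζ) = (rt x y (α u) - ζ) * c := fun c => by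
      rw [mul_sub, sub_mul, huc, hzc]
    have h2 := der_cen hD h1 a
    have h3 : ζ * ζ * a = a * (ζ * ζ) := by
      rw [mul_assoc, ← hzc a, ← mul_assoc, ← hzc a, mul_assoc]
    rw [hp, sub_mul, mul_sub, h2, smul_mul_assoc, mul_smul_comm, h3]
  have hpfx : p ∈ FxR (cw F α) (⊤ : Subgroup V) := cen_fx (fun c => (hpc c).symm) _
  have htfx : ∀ t, (α (φ t u) - 1) * w ∈ FxR (cw F α) (⊤ : Subgroup V) := fun t =>
    Pool.Agent.PSS.S0.H6.fx_mul α (Submodule.sub_mem _ (hufx _) h1fx) hwfx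
  have hβp : β p = ∑ t ∈ T, (αB (φ t u) - 1) * β w := by
    have h := (hB.ker _ (Submodule.sub_mem _ hpfx (Submodule.sum_mem _ fun t _ => htfx t))).2 hpe
    rw [hBsub _ hpfx _ (Submodule.sum_mem _ fun t _ => htfx t), hBsum _ htfx, sub_eq_zero] at h
    rw [h]
    refine Finset.sum_congr rfl fun t _ => ?_
    rw [hB.mul _ (Submodule.sub_mem _ (hufx _) h1fx) _ hwfx, hBsub _ (hufx _) _ h1fx, hB.one,
      hB.om]
  have hnil : IsNilpotent (β p) := by
    rw [hβp]
    refine nil_sum_cen T (fun t => αB (φ t u) - 1) (fun _ => β w) ?_ ?_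
    · intro t b
      rw [sub_mul, mul_sub, hVB, one_mul, mul_one]
    · intro t
      exact nil_unip (F := F) hV αB _
  obtain ⟨N, hN⟩ := hnil
  have hpow : ∀ N : ℕ, p ^ N ∈ FxR (cw F α) (⊤ : Subgroup V) ∧ β (p ^ N) = (β p) ^ N := by
    intro N
    induction N with
    | zero => rw [pow_zero, pow_zero]; exact ⟨h1fx, hB.one⟩
    | succ N ih =>
      rw [pow_succ, pow_succ]
      exact ⟨Pool.Agent.PSS.S0.H6.fx_mul α ih.1 hpfx, by rw [hB.mul _ ih.1 _ hpfx, ih.2]⟩
  exact nkb F V E A φ α hC p hpc N ((hB.ker _ (hpow N).1).1 (by rw [(hpow N).2, hN]))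

end Pool.Agent.PST.H56
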