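import Pool.Agent.PST.StmtsGR
import Pool.Agent.Helper44_PSS.CLN

/-!
# Squad PST, row CLT (helper56): from the clean hypotheses to the class
-/

set_option autoImplicit false

open scoped BigOperators

noncomputable section

namespace Pool.Agent.PST.H56

open Pool.Agent.PST
open Pool.Agent.Helper51_AWC Pool.Agent.Helper79_WRA Pool.Agent.PP Pool.Agent.PP.KF
open Pool.Agent.PP.K9 Pool.Agent.PP.K9.H97 Pool.Agent.PP.H75 Pool.Agent.PP.T3 Pool.Agent.PP.T2
open Pool.Agent.PP.TB (Zd Star iz cz)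
open Pool.Agent.PFD (Ei)
open Pool.Agent.PSS

attribute [local instance] Ideal.Quotient.field

theorem ne_bot_of {G : Type} [Group G] {U V : Subgroup G} (hUV : U ≤ V) (hU : U ≠ ⊥) :
    U.subgroupOf V ≠ ⊥ := by
  intro h1
  apply hU
  rw [eq_bot_iff]
  intro u hu
  have h6 : (⟨u, hUV hu⟩ : V) ∈ U.subgroupOf V := Subgroup.mem_subgroupOf.2 hu
  rw [h1, Subgroup.mem_bot] at h6
  rw [Subgroup.mem_bot]
  exact congrArg Subtype.val h6

theorem clt (lst : LstStmt) (edf : PFD.EdfStmt) (lke : PFD.LkeStmt) (inx : K9.InxStmt) :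
    CltStmt := by
  intro ℓ hℓ M _ hM G _ _ e V γ hL hV n P U h
  have hab : ∀ a b : V, a * b = b * a := fun a b => Subtype.ext (hL.ab a a.2 b b.2)
  -- the order of `Ei`
  have hcop : ¬ ℓ ∣ Nat.card (Ei V γ) := by
    have h1 := (lke ℓ (FF M) G e V γ hL).1
    rw [← h1]
    have h2 := inx ℓ M hM G e hL.blk V hL.tp hL.ab γ hL.gam.supp hL.gam.blk hL.und
    have h3 : iz V V γ = (Subgroup.centralizer (V : Set G)).relIndex
        (Subgroup.normalizer (V : Set G) ⊓ stabF γ) := by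
      unfold iz
      rw [Subgroup.inf_relIndex_right]
      rfl
    rw [h3]
    exact h2
  -- stable subgroups
  have hst : ∀ Z : Subgroup G, (∀ t ∈ Tg V γ, ∀ z ∈ Z, t * z * t⁻¹ ∈ Z) →
      ∀ a ∈ Ei V γ, ∀ z ∈ Z.subgroupOf V, a z ∈ Z.subgroupOf V := by
    rintro Z hZ _ ⟨⟨t, htn⟩, ht, rfl⟩ z hz
    rw [Subgroup.mem_subgroupOf]
    exact hZ t (Subgroup.mem_subgroupOf.1 ht) z (Subgroup.mem_subgroupOf.1 hz)
  have hPV : ∀ i, i ≤ n → P i ≤ V := by
    intro i
    induction i with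
    | zero =>
      intro _
      rw [h.p0]
    | succ i ih =>
      intro hi
      exact (h.le i (by omega)).trans (ih (by omega))
  -- one step
  have hstep : ∀ i, i < n → StA ℓ (Ei V γ) ((P i).subgroupOf V) ((P (i + 1)).subgroupOf V) := by
    intro i hi
    refine ⟨?_, ?_, ?_⟩
    · intro x hx
      exact Subgroup.mem_subgroupOf.2 (h.le i hi (Subgroup.mem_subgroupOf.1 hx))
    · exact hst _ (h.st (i + 1) (by omega))
    · rcases h.tp i hi with ⟨Y, y1, y2, ⟨y, hy, hy'⟩, y4⟩ | ⟨hℓ2, el, fr, ab⟩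
      · left
        have hYP : Y ≤ P i := by
          rw [← y2]
          exact le_sup_left
        have hYV : Y ≤ V := hYP.trans (hPV i hi.le)
        refine ⟨Y.subgroupOf V, ?_, ?_, ⟨⟨y, hYV hy⟩, Subgroup.mem_subgroupOf.2 hy, ?_⟩,
          hst Y y4⟩
        · rw [eq_bot_iff]
          rintro x ⟨hx1, hx2⟩
          have h3 : (x : G) ∈ Y ⊓ P (i + 1) :=
            ⟨Subgroup.mem_subgroupOf.1 hx1, Subgroup.mem_subgroupOf.1 hx2⟩
          rw [y1, Subgroup.mem_bot] at h3
          rw [Subgroup.mem_bot]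
          exact Subtype.ext h3
        · rw [← Subgroup.subgroupOf_sup hYV (hPV (i + 1) (by omega)), y2]
        · intro x hx
          obtain ⟨k, hk⟩ := hy' x (Subgroup.mem_subgroupOf.1 hx)
          exact ⟨k, Subtype.ext hk⟩
      · right
        refine ⟨hℓ2, ?_, ?_, ?_⟩
        · intro v hv
          exact Subgroup.mem_subgroupOf.2 (el v (Subgroup.mem_subgroupOf.1 hv))
        · rintro _ ⟨⟨t, htn⟩, ht, rfl⟩ v hv hv' hfix w hw
          exact Subgroup.mem_subgroupOf.2 (fr t (Subgroup.mem_subgroupOf.1 ht) v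
            (Subgroup.mem_subgroupOf.1 hv) (fun h1 => hv' (Subgroup.mem_subgroupOf.2 h1))
            (Subgroup.mem_subgroupOf.1 hfix) w (Subgroup.mem_subgroupOf.1 hw))
        · rintro _ ⟨⟨s, hsn⟩, hs, rfl⟩ _ ⟨⟨t, htn⟩, ht, rfl⟩ v hv
          have h8 := ab s (Subgroup.mem_subgroupOf.1 hs) t
            (Subgroup.mem_subgroupOf.1 ht) v (Subgroup.mem_subgroupOf.1 hv)
          apply Subtype.ext
          show s * (t * (v : G) * t⁻¹) * s⁻¹ = t * (s * (v : G) * s⁻¹) * t⁻¹
          have h9 : s * (t * (v : G) * t⁻¹) * s⁻¹ = s * t * (v : G) * (s * t)⁻¹ := by group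
          have h10 : t * (s * (v : G) * s⁻¹) * t⁻¹ = t * s * (v : G) * (t * s)⁻¹ := by group
          rw [h9, h10]
          exact h8
  -- the chain
  have hch : ∀ k, k ≤ n → ChA ℓ (Ei V γ) ((P (n - k)).subgroupOf V) ((P n).subgroupOf V) := by
    intro k
    induction k with
    | zero =>
      intro _
      exact ChA.refl _
    | succ k ih =>
      intro hk
      have h1 := hstep (n - (k + 1)) (by omega)
      have h2 : n - (k + 1) + 1 = n - k := by omega
      rw [h2] at h1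
      exact ChA.step _ _ _ h1 (ih (by omega))
  have htop : ChA ℓ (Ei V γ) ⊤ ((P n).subgroupOf V) := by
    have h1 := hch n le_rfl
    rw [Nat.sub_self, h.p0, Subgroup.subgroupOf_self] at h1
    exact h1
  by_cases hW : P n = ⊥
  · -- `P n = 1`
    rw [hW, Subgroup.bot_subgroupOf] at htop
    have hne : (⊤ : Subgroup V) ≠ ⊥ := by
      rw [← Subgroup.subgroupOf_self]
      exact ne_bot_of le_rfl hV
    obtain ⟨W, U', X', h1, h2⟩ := lst ℓ V (Ei V γ) Fact.out hL.tp.1 hcop ⊤ hne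
      (fun _ _ _ _ => trivial) htop
    exact ⟨W, hab, h1, U', X', h2⟩
  · have hU : U ≠ ⊥ := fun h1 => hW (h.nt h1)
    have hUV : U ≤ V := h.uw.trans (hPV n le_rfl)
    obtain ⟨U', X', x1, x2, x3, x4, x5, x6⟩ := Pool.Agent.PSS.H44.relEdf edf Fact.out hL.tp.1 hab
      (Ei V γ) hcop (U.subgroupOf V) ((P n).subgroupOf V)
      (fun u hu => Subgroup.mem_subgroupOf.2 (h.uw (Subgroup.mem_subgroupOf.1 hu)))
      (ne_bot_of hUV hU) (hst U h.su) (hst (P n) (h.st n le_rfl))
      (by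
        rintro _ ⟨⟨t, htn⟩, ht, rfl⟩ u hu hu1 hfix w hw
        have h7 : t * (u : G) * t⁻¹ = u := congrArg Subtype.val hfix
        have h8 := h.fr t (Subgroup.mem_subgroupOf.1 ht) u (Subgroup.mem_subgroupOf.1 hu)
          (fun h => hu1 (Subtype.ext h)) (mul_inv_eq_iff_eq_mul.1 h7)
        apply Subtype.ext
        show t * (w : G) * t⁻¹ = w
        have h9 : (w : G) * t = t * w :=
          (Subgroup.mem_centralizer_iff.1 h8) w (Subgroup.mem_subgroupOf.1 hw)
        rw [← h9, mul_inv_cancel_right])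
    exact ⟨(P n).subgroupOf V, hab, htop, U', X',
      { ux := x1
        uw := x2
        nt := x3
        su := x4
        sx := x5
        fr := x6 }⟩

end Pool.Agent.PST.H56
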